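import Pool.Agent.MTO.Stmts

/-!
Squad MTO, row LVE (helper13): the Hodge numbers.
-/

set_option autoImplicit false

namespace Pool.Agent.MTO.H13

open Matrix Polynomial NumberField Pool.Agent.MT100 Pool.Agent.MT100G Pool.Agent.MT100A
  Pool.Agent.MT100D Pool.Agent.Helper78_MT Pool.Agent.Helper46_MT Pool.Agent.MTF Pool.Agent.MTL
  Pool.Agent.MTN Pool.Agent.MTN.H53 Pool.Agent.HIK Pool.Agent.MT100GO

theorem lve : LveStmt := by
  classical
  intro d _ _ F lev P hP
  obtain ⟨R0, hR0⟩ := MTN.H74.lvd F lev P hP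
  refine ⟨R0, fun x hx w E V hH hV p hp => ?_⟩
  have hl := hR0 x hx w E V hH hV
  by_cases h : w - p = p
  · rw [h, sup_idem, hl p]
    simp only [or_self]
  · have hdis : Disjoint (V p) (V (w - p)) :=
      (hH.indep p).mono_right (le_iSup₂_of_le (w - p) h le_rfl)
    have h1 := Submodule.finrank_sup_add_finrank_inf_eq (V p) (V (w - p))
    rw [hdis.eq_bot, finrank_bot, add_zero, hl p, hl (w - p)] at h1
    rw [h1]
    have h2 : Disjoint (fun a => lev a = p) (fun a => lev a = w - p) := by
      rw [Pi.disjoint_iff]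
      intro a
      rw [Prop.disjoint_iff]
      rintro ⟨h3, h4⟩
      exact h (h4.symm.trans h3)
    exact (Fintype.card_subtype_or_disjoint _ _ h2).symm

end Pool.Agent.MTO.H13
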